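import Pool.Agent.W450.RW.RE

set_option autoImplicit false
open MeasureTheory Filter Topology Complex
open scoped ContDiff

namespace Pool.Agent.W450.RW.DC
open Pool.Agent.W745.RW Pool.Agent.W450.RW.RE

lemma cut_int {U : Set ℂ} (hU : IsOpen U) {φ : ℂ → ℝ} (hφ : TF U φ)
    {χ : ℂ → ℂ} (hχ : ContDiffOn ℝ ∞ χ U) : Integrable (fun z => (φ z : ℂ) * χ z) := by
  refine (cut_smooth hU hφ.1 hφ.2.2 hχ).continuous.integrable_of_hasCompactSupport ?_
  exact (hφ.2.1.comp_left (g := fun x : ℝ => (x : ℂ)) Complex.ofReal_zero).mul_right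

lemma cut_cpt {U : Set ℂ} {φ : ℂ → ℝ} (hφ : TF U φ) (χ : ℂ → ℂ) :
    HasCompactSupport (fun z => (φ z : ℂ) * χ z) :=
  (hφ.2.1.comp_left (g := fun x : ℝ => (x : ℂ)) Complex.ofReal_zero).mul_right

lemma int_fderiv {G : ℂ → ℂ} (hG : ContDiff ℝ ∞ G) (hc : HasCompactSupport G) (v : ℂ) :
    ∫ z, fderiv ℝ G z v = 0 := by
  have hG1 : ContDiff ℝ 1 G := hG.of_le (by simp)
  have h1 : Integrable (fun z => fderiv ℝ G z v) := by
    refine Continuous.integrable_of_hasCompactSupport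
      ((hG1.continuous_fderiv (by norm_num)).clm_apply continuous_const) ?_
    exact (hc.fderiv ℝ).comp_left (g := fun A : ℂ →L[ℝ] ℂ => A v) rfl
  have := integral_mul_fderiv_eq_neg_fderiv_mul_of_integrable (𝕜 := ℂ) (μ := (volume : Measure ℂ))
    (f := fun _ : ℂ => (1 : ℂ)) (g := G) (v := v) (by simp) (by simpa using h1)
    (by simpa using hG.continuous.integrable_of_hasCompactSupport hc)
    (fun z _ => differentiableAt_const _) (fun z _ => (hG1.differentiable (by norm_num)) z)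
  simpa using this

/-- The identity from integration by parts. -/
lemma parts {U : Set ℂ} (hU : IsOpen U) {φ : ℂ → ℝ} (hφ : TF U φ)
    {A1 A2 X : ℂ → ℂ} (hA1 : ContDiffOn ℝ ∞ A1 U) (hA2 : ContDiffOn ℝ ∞ A2 U)
    (hX : ContDiffOn ℝ ∞ X U) (hdiv : ∀ z ∈ U, dx A1 z + dy A2 z = 0) :
    ∫ z, (φ z : ℂ) * (A1 z * dx X z + A2 z * dy X z) =
      - ∫ z, X z * (A1 z * ((dx φ z : ℝ) : ℂ) + A2 z * ((dy φ z : ℝ) : ℂ)) := by
  have hG1 : ContDiff ℝ ∞ (fun z => (φ z : ℂ) * (X z * A1 z)) :=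
    cut_smooth hU hφ.1 hφ.2.2 (hX.mul hA1)
  have hG2 : ContDiff ℝ ∞ (fun z => (φ z : ℂ) * (X z * A2 z)) :=
    cut_smooth hU hφ.1 hφ.2.2 (hX.mul hA2)
  have c1 := cut_cpt hφ (fun z => X z * A1 z)
  have c2 := cut_cpt hφ (fun z => X z * A2 z)
  have i1 := int_fderiv hG1 c1 1
  have i2 := int_fderiv hG2 c2 I
  have j : ∀ (G : ℂ → ℂ), ContDiff ℝ ∞ G → HasCompactSupport G → ∀ v : ℂ,
      Integrable (fun z => fderiv ℝ G z v) := by
    intro G hG hc v
    have hG1 : ContDiff ℝ 1 G := hG.of_le (by simp)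
    refine Continuous.integrable_of_hasCompactSupport
      ((hG1.continuous_fderiv (by norm_num)).clm_apply continuous_const) ?_
    exact (hc.fderiv ℝ).comp_left (g := fun A : ℂ →L[ℝ] ℂ => A v) rfl
  have i3 : ∫ z, (fderiv ℝ (fun z => (φ z : ℂ) * (X z * A1 z)) z 1 +
      fderiv ℝ (fun z => (φ z : ℂ) * (X z * A2 z)) z I) = 0 := by
    rw [integral_add (j _ hG1 c1 1) (j _ hG2 c2 I), i1, i2, add_zero]
  have hdX : ∀ v : ℂ, ContDiffOn ℝ ∞ (fun z => fderiv ℝ X z v) U := by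
    intro v
    exact (hX.fderiv_of_isOpen hU (by simp)).clm_apply contDiffOn_const
  have k1 : Integrable (fun z => (φ z : ℂ) * (A1 z * dx X z + A2 z * dy X z)) :=
    cut_int hU hφ ((hA1.mul (hdX 1)).add (hA2.mul (hdX I)))
  have hTF : ∀ v : ℂ, TF U (fun z => fderiv ℝ φ z v) := by
    intro v
    refine ⟨(hφ.1.fderiv_right (by simp)).clm_apply contDiff_const, ?_, ?_⟩
    · exact (hφ.2.1.fderiv ℝ).comp_left (g := fun A : ℂ →L[ℝ] ℝ => A v) rfl
    · refine Set.Subset.trans ?_ hφ.2.2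
      refine Set.Subset.trans (closure_mono ?_) (tsupport_fderiv_subset ℝ)
      intro z hz h0
      exact hz (by simp [h0])
  have k2 : Integrable (fun z => X z * (A1 z * ((dx φ z : ℝ) : ℂ) + A2 z * ((dy φ z : ℝ) : ℂ))) := by
    have e1 := cut_int hU (hTF 1) (hX.mul hA1)
    have e2 := cut_int hU (hTF I) (hX.mul hA2)
    refine (e1.add e2).congr (ae_of_all _ (fun z => ?_))
    simp only [dx, dy, Pi.add_apply]
    ring
  have key : ∀ z, fderiv ℝ (fun z => (φ z : ℂ) * (X z * A1 z)) z 1 +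
      fderiv ℝ (fun z => (φ z : ℂ) * (X z * A2 z)) z I =
      (φ z : ℂ) * (A1 z * dx X z + A2 z * dy X z) +
        X z * (A1 z * ((dx φ z : ℝ) : ℂ) + A2 z * ((dy φ z : ℝ) : ℂ)) := by
    intro z
    by_cases hz : z ∈ U
    · have dφ : HasFDerivAt φ (fderiv ℝ φ z) z :=
        (hφ.1.differentiable (by simp) z).hasFDerivAt
      have dφ' : HasFDerivAt (fun z => (φ z : ℂ)) (Complex.ofRealCLM.comp (fderiv ℝ φ z)) z :=
        Complex.ofRealCLM.hasFDerivAt.comp z dφ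
      have dX : HasFDerivAt X (fderiv ℝ X z) z :=
        ((hX.contDiffAt (hU.mem_nhds hz)).differentiableAt (by simp)).hasFDerivAt
      have dA1 : HasFDerivAt A1 (fderiv ℝ A1 z) z :=
        ((hA1.contDiffAt (hU.mem_nhds hz)).differentiableAt (by simp)).hasFDerivAt
      have dA2 : HasFDerivAt A2 (fderiv ℝ A2 z) z :=
        ((hA2.contDiffAt (hU.mem_nhds hz)).differentiableAt (by simp)).hasFDerivAt
      have f1 := (dφ'.mul (dX.mul dA1)).fderiv
      have f2 := (dφ'.mul (dX.mul dA2)).fderiv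
      change fderiv ℝ (fun z => (φ z : ℂ) * (X z * A1 z)) z = _ at f1
      change fderiv ℝ (fun z => (φ z : ℂ) * (X z * A2 z)) z = _ at f2
      rw [f1, f2]
      have := hdiv z hz
      simp only [dx, dy] at this ⊢
      simp only [ContinuousLinearMap.add_apply, ContinuousLinearMap.smul_apply, smul_eq_mul,
        ContinuousLinearMap.comp_apply, Complex.ofRealCLM_apply, Pi.mul_apply]
      linear_combination ((φ z : ℂ) * X z) * this
    · have h0 : φ =ᶠ[𝓝 z] 0 := notMem_tsupport_iff_eventuallyEq.1 (fun h => hz (hφ.2.2 h))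
      have h1 : ∀ Y : ℂ → ℂ, (fun z => (φ z : ℂ) * Y z) =ᶠ[𝓝 z] fun _ => 0 := by
        intro Y
        filter_upwards [h0] with w hw
        simp [hw]
      have e1 : φ z = 0 := h0.eq_of_nhds
      have e2 : fderiv ℝ φ z = 0 := by
        rw [h0.fderiv_eq]; simp
      rw [(h1 _).fderiv_eq, (h1 _).fderiv_eq]
      simp [dx, dy, e1, e2]
  rw [integral_congr_ae (ae_of_all _ key), integral_add k1 k2] at i3
  exact eq_neg_of_add_eq_zero_left i3

/-- The main estimate. -/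
lemma est {U : Set ℂ} (hU : IsOpen U) {φ : ℂ → ℝ} (hφ : TF U φ) {Cφ : ℝ}
    (hCφ : ∀ z, ‖fderiv ℝ φ z‖ ≤ Cφ)
    {A1 A2 X : ℂ → ℂ} (hA1 : ContDiffOn ℝ ∞ A1 U) (hA2 : ContDiffOn ℝ ∞ A2 U)
    (hX : ContDiffOn ℝ ∞ X U) (hdiv : ∀ z ∈ U, dx A1 z + dy A2 z = 0) {t δ CA : ℝ} (ht : 0 < t)
    (hA : ∫ z in tsupport φ, (‖A1 z‖ ^ 2 + ‖A2 z‖ ^ 2) ≤ CA)
    (m : ℂ) (hm : ∫ z in tsupport φ, ‖X z - m‖ ^ 2 ≤ δ) :
    ‖∫ z, (φ z : ℂ) * (A1 z * dx X z + A2 z * dy X z)‖ ≤ Cφ * (t⁻¹ * δ + t * CA) := by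
  have hCφ0 : 0 ≤ Cφ := (norm_nonneg _).trans (hCφ 0)
  have hK : IsCompact (tsupport φ) := hφ.2.1
  have e0 : ∫ z, (φ z : ℂ) * (A1 z * dx X z + A2 z * dy X z) =
      ∫ z, (φ z : ℂ) * (A1 z * dx (fun z => X z - m) z + A2 z * dy (fun z => X z - m) z) := by
    congr 1; funext z
    simp only [dx, dy, fderiv_sub_const]
  rw [e0, parts hU hφ hA1 hA2 (hX.sub contDiffOn_const) hdiv, norm_neg]
  have e1 : ∫ z, (X z - m) * (A1 z * ((dx φ z : ℝ) : ℂ) + A2 z * ((dy φ z : ℝ) : ℂ)) =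
      ∫ z in tsupport φ, (X z - m) * (A1 z * ((dx φ z : ℝ) : ℂ) + A2 z * ((dy φ z : ℝ) : ℂ)) := by
    refine (setIntegral_eq_integral_of_forall_compl_eq_zero (fun z hz => ?_)).symm
    have h0 : φ =ᶠ[𝓝 z] 0 := notMem_tsupport_iff_eventuallyEq.1 hz
    have e2 : fderiv ℝ φ z = 0 := by
      rw [h0.fderiv_eq]; simp
    simp [dx, dy, e2]
  rw [e1]
  have cX : ContinuousOn (fun z => ‖X z - m‖ ^ 2) (tsupport φ) :=
    (((hX.continuousOn.mono hφ.2.2).sub continuousOn_const).norm.pow 2)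
  have cA : ContinuousOn (fun z => (‖A1 z‖ ^ 2 + ‖A2 z‖ ^ 2)) (tsupport φ) :=
    ((hA1.continuousOn.mono hφ.2.2).norm.pow 2).add ((hA2.continuousOn.mono hφ.2.2).norm.pow 2)
  have iX := ContinuousOn.integrableOn_compact (μ := volume) hK cX
  have iA := ContinuousOn.integrableOn_compact (μ := volume) hK cA
  refine (norm_integral_le_of_norm_le
    (g := fun z => Cφ * (t⁻¹ * ‖X z - m‖ ^ 2 + t * (‖A1 z‖ ^ 2 + ‖A2 z‖ ^ 2)))
    (((iX.const_mul _).add (iA.const_mul _)).const_mul _) (ae_of_all _ (fun z => ?_))).trans ?_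
  · have h1 : ‖((dx φ z : ℝ) : ℂ)‖ ≤ Cφ := by
      rw [Complex.norm_real]
      refine ((fderiv ℝ φ z).le_opNorm 1).trans ?_
      rw [norm_one, mul_one]; exact hCφ z
    have h2 : ‖((dy φ z : ℝ) : ℂ)‖ ≤ Cφ := by
      rw [Complex.norm_real]
      refine ((fderiv ℝ φ z).le_opNorm I).trans ?_
      rw [Complex.norm_I, mul_one]; exact hCφ z
    have h3 : ‖A1 z * ((dx φ z : ℝ) : ℂ) + A2 z * ((dy φ z : ℝ) : ℂ)‖ ≤
        Cφ * (‖A1 z‖ + ‖A2 z‖) := by
      refine (norm_add_le _ _).trans ?_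
      rw [norm_mul, norm_mul]
      have := mul_le_mul_of_nonneg_left h1 (norm_nonneg (A1 z))
      have := mul_le_mul_of_nonneg_left h2 (norm_nonneg (A2 z))
      linarith
    rw [norm_mul]
    have h4 : ‖X z - m‖ * (‖A1 z‖ + ‖A2 z‖) ≤
        t⁻¹ * ‖X z - m‖ ^ 2 + t * (‖A1 z‖ ^ 2 + ‖A2 z‖ ^ 2) := by
      set x := ‖X z - m‖
      set a := ‖A1 z‖
      set b := ‖A2 z‖
      have h5 : t⁻¹ * x ^ 2 + t * (a ^ 2 + b ^ 2) - x * (a + b) =
          t⁻¹ * ((x - t * (a + b) / 2) ^ 2 + t ^ 2 * ((a - b) ^ 2 / 4 + (a ^ 2 + b ^ 2) / 2)) := by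
        field_simp
        ring
      have h6 : 0 ≤ t⁻¹ * ((x - t * (a + b) / 2) ^ 2 +
          t ^ 2 * ((a - b) ^ 2 / 4 + (a ^ 2 + b ^ 2) / 2)) := by positivity
      linarith
    calc ‖X z - m‖ * ‖A1 z * ((dx φ z : ℝ) : ℂ) + A2 z * ((dy φ z : ℝ) : ℂ)‖
        ≤ ‖X z - m‖ * (Cφ * (‖A1 z‖ + ‖A2 z‖)) := mul_le_mul_of_nonneg_left h3 (norm_nonneg _)
      _ = Cφ * (‖X z - m‖ * (‖A1 z‖ + ‖A2 z‖)) := by ring
      _ ≤ _ := mul_le_mul_of_nonneg_left h4 hCφ0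
  · rw [integral_const_mul]
    refine mul_le_mul_of_nonneg_left ?_ hCφ0
    rw [integral_add (iX.const_mul _) (iA.const_mul _), integral_const_mul, integral_const_mul]
    have h1 := mul_le_mul_of_nonneg_left hm (inv_pos.2 ht).le
    have h2 := mul_le_mul_of_nonneg_left hA ht.le
    linarith

theorem main (hSt : SSt) (hRe : SRe) : SDC := by
  intro c r E1 E2 F1 F2 e1 e2 f1 f2 hs hdiv hbd hlim φ hφ
  have hU : IsOpen (Metric.ball c r) := Metric.isOpen_ball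
  -- the functions with constants removed
  have hst : ∀ n, ∃ χ : ℂ → ℂ, ContDiffOn ℝ ∞ χ (Metric.ball c r) ∧
      ∀ z ∈ Metric.ball c r, dy χ z = F1 n z - f1 ∧ dx χ z = - (F2 n z - f2) := by
    intro n
    refine hSt c r (fun z => F1 n z - f1) (fun z => F2 n z - f2)
      ((hs n).2.2.1.sub contDiffOn_const) ((hs n).2.2.2.sub contDiffOn_const) (fun z hz => ?_)
    simp only [dx, dy, fderiv_sub_const]
    exact ((hdiv n z hz).2)
  choose χ hχ hχd using hst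
  have sub_sq : ∀ a b : ℂ, ‖a - b‖ ^ 2 ≤ 2 * ‖a‖ ^ 2 + 2 * ‖b‖ ^ 2 := by
    intro a b
    have h1 := norm_sub_le a b
    have h2 : ‖a - b‖ ^ 2 ≤ (‖a‖ + ‖b‖) ^ 2 := pow_le_pow_left₀ (norm_nonneg _) h1 2
    nlinarith [sq_nonneg (‖a‖ - ‖b‖)]
  -- bounds
  have hbE : ∀ K : Set ℂ, IsCompact K → K ⊆ Metric.ball c r → ∃ C : ℝ, ∀ᶠ n in atTop,
      (∫ z in K, (‖dx (χ n) z‖ ^ 2 + ‖dy (χ n) z‖ ^ 2) ≤ C) ∧
      (∫ z in K, (‖E1 n z - e1‖ ^ 2 + ‖E2 n z - e2‖ ^ 2) ≤ C) := by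
    intro K hK hKb
    obtain ⟨C, hC⟩ := hbd K hK hKb
    refine ⟨2 * C + (2 * (‖e1‖ ^ 2 + ‖e2‖ ^ 2 + ‖f1‖ ^ 2 + ‖f2‖ ^ 2)) * ∫ _z in K, (1 : ℝ), ?_⟩
    filter_upwards [hC] with n hn
    have c1 : ContinuousOn (E1 n) K := (hs n).1.continuousOn.mono hKb
    have c2 : ContinuousOn (E2 n) K := (hs n).2.1.continuousOn.mono hKb
    have c3 : ContinuousOn (F1 n) K := (hs n).2.2.1.continuousOn.mono hKb
    have c4 : ContinuousOn (F2 n) K := (hs n).2.2.2.continuousOn.mono hKb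
    have i0 : IntegrableOn (fun z => ‖E1 n z‖ ^ 2 + ‖E2 n z‖ ^ 2 + ‖F1 n z‖ ^ 2 + ‖F2 n z‖ ^ 2) K :=
      ContinuousOn.integrableOn_compact hK
        ((((c1.norm.pow 2).add (c2.norm.pow 2)).add (c3.norm.pow 2)).add (c4.norm.pow 2))
    have i1 : IntegrableOn (fun _ : ℂ => (1 : ℝ)) K :=
      ContinuousOn.integrableOn_compact hK continuousOn_const
    have tot : ∫ z in K, (2 * (‖E1 n z‖ ^ 2 + ‖E2 n z‖ ^ 2 + ‖F1 n z‖ ^ 2 + ‖F2 n z‖ ^ 2) +
        (2 * (‖e1‖ ^ 2 + ‖e2‖ ^ 2 + ‖f1‖ ^ 2 + ‖f2‖ ^ 2)) * 1) ≤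
        2 * C + (2 * (‖e1‖ ^ 2 + ‖e2‖ ^ 2 + ‖f1‖ ^ 2 + ‖f2‖ ^ 2)) * ∫ _z in K, (1 : ℝ) := by
      rw [integral_add (i0.const_mul 2) (i1.const_mul _), integral_const_mul, integral_const_mul]
      linarith
    have itot := (i0.const_mul 2).add (i1.const_mul (2 * (‖e1‖ ^ 2 + ‖e2‖ ^ 2 + ‖f1‖ ^ 2 + ‖f2‖ ^ 2)))
    constructor
    · refine le_trans ?_ tot
      have cx : ContinuousOn (fun z => ‖F2 n z - f2‖ ^ 2 + ‖F1 n z - f1‖ ^ 2) K :=
        ((c4.sub continuousOn_const).norm.pow 2).add ((c3.sub continuousOn_const).norm.pow 2)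
      have : ∫ z in K, (‖dx (χ n) z‖ ^ 2 + ‖dy (χ n) z‖ ^ 2) =
          ∫ z in K, (‖F2 n z - f2‖ ^ 2 + ‖F1 n z - f1‖ ^ 2) := by
        refine setIntegral_congr_fun hK.measurableSet (fun z hz => ?_)
        have := hχd n z (hKb hz)
        simp only [this.1, this.2, norm_neg]
      rw [this]
      refine setIntegral_mono_on (ContinuousOn.integrableOn_compact hK cx) itot
        hK.measurableSet (fun z _ => ?_)
      have h1 := sub_sq (F2 n z) f2
      have h2 := sub_sq (F1 n z) f1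
      have h3 := sq_nonneg ‖E1 n z‖
      have h4 := sq_nonneg ‖E2 n z‖
      have h5 := sq_nonneg ‖e1‖
      have h6 := sq_nonneg ‖e2‖
      linarith
    · refine le_trans ?_ tot
      have cx : ContinuousOn (fun z => ‖E1 n z - e1‖ ^ 2 + ‖E2 n z - e2‖ ^ 2) K :=
        ((c1.sub continuousOn_const).norm.pow 2).add ((c2.sub continuousOn_const).norm.pow 2)
      refine setIntegral_mono_on (ContinuousOn.integrableOn_compact hK cx) itot
        hK.measurableSet (fun z _ => ?_)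
      have h1 := sub_sq (E1 n z) e1
      have h2 := sub_sq (E2 n z) e2
      have h3 := sq_nonneg ‖F1 n z‖
      have h4 := sq_nonneg ‖F2 n z‖
      have h5 := sq_nonneg ‖f1‖
      have h6 := sq_nonneg ‖f2‖
      linarith
  -- weak convergence of the gradients
  have hw : ∀ ψ, TF (Metric.ball c r) ψ → Null (fun n => ∫ z, (ψ z : ℂ) * dx (χ n) z) ∧
      Null (fun n => ∫ z, (ψ z : ℂ) * dy (χ n) z) := by
    intro ψ hψ
    have hcst : ∀ k : ℂ, Integrable (fun z => (ψ z : ℂ) * k) := fun k =>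
      cut_int hU hψ contDiffOn_const
    have hck : ∀ k : ℂ, ∫ z, (ψ z : ℂ) * k = k * ((∫ z, ψ z : ℝ) : ℂ) := by
      intro k
      have h : ∫ z, (ψ z : ℂ) = ((∫ z, ψ z : ℝ) : ℂ) := integral_ofReal
      rw [integral_mul_const, h]; ring
    constructor
    · have h1 : ∀ n, ∫ z, (ψ z : ℂ) * dx (χ n) z =
          -((∫ z, (ψ z : ℂ) * F2 n z) - f2 * ((∫ z, ψ z : ℝ) : ℂ)) := by
        intro n
        rw [← hck, ← integral_sub (cut_int hU hψ (hs n).2.2.2) (hcst f2), ← integral_neg]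
        congr 1; funext z
        by_cases hz : z ∈ Metric.ball c r
        · rw [(hχd n z hz).2]; ring
        · rw [image_eq_zero_of_notMem_tsupport (fun h => hz (hψ.2.2 h))]; simp
      have h2 := ((hlim ψ hψ).2.2.2.sub_const (f2 * ((∫ z, ψ z : ℝ) : ℂ))).neg
      rw [sub_self, neg_zero] at h2
      exact h2.congr (fun n => (h1 n).symm)
    · have h1 : ∀ n, ∫ z, (ψ z : ℂ) * dy (χ n) z =
          ((∫ z, (ψ z : ℂ) * F1 n z) - f1 * ((∫ z, ψ z : ℝ) : ℂ)) := by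
        intro n
        rw [← hck, ← integral_sub (cut_int hU hψ (hs n).2.2.1) (hcst f1)]
        congr 1; funext z
        by_cases hz : z ∈ Metric.ball c r
        · rw [(hχd n z hz).1]; ring
        · rw [image_eq_zero_of_notMem_tsupport (fun h => hz (hψ.2.2 h))]; simp
      have h2 := ((hlim ψ hψ).2.2.1.sub_const (f1 * ((∫ z, ψ z : ℝ) : ℂ)))
      rw [sub_self] at h2
      exact h2.congr (fun n => (h1 n).symm)
  have hR := hRe c r χ hχ (fun K hK hKb => by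
    obtain ⟨C, hC⟩ := hbE K hK hKb
    exact ⟨C, hC.mono (fun n h => h.1)⟩) hw (tsupport φ) hφ.2.1 hφ.2.2
  obtain ⟨CA, hCA⟩ := hbE (tsupport φ) hφ.2.1 hφ.2.2
  -- bound of the derivative of the test function
  obtain ⟨L, hL⟩ := ContDiff.lipschitzWith_of_hasCompactSupport hφ.2.1 hφ.1 (by simp)
  have hCφ : ∀ z, ‖fderiv ℝ φ z‖ ≤ (L : ℝ) := fun z => norm_fderiv_le_of_lipschitz ℝ hL
  have hnull : Tendsto (fun n => ∫ z, (φ z : ℂ) * ((E1 n z - e1) * dx (χ n) z +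
      (E2 n z - e2) * dy (χ n) z)) atTop (𝓝 0) := by
    rw [Metric.tendsto_atTop']
    intro ε hε
    set t : ℝ := ε / (4 * (L + 1) * (|CA| + 1)) with ht
    have ht0 : 0 < t := by positivity
    set δ : ℝ := t * ε / (4 * (L + 1)) with hδ
    have hδ0 : 0 < δ := by positivity
    have hev := (hCA.and (hR δ hδ0))
    obtain ⟨N, hN⟩ := eventually_atTop.1 hev
    refine ⟨N, fun n hn => ?_⟩
    obtain ⟨hA, m, hm⟩ := hN n hn.le
    rw [dist_zero_right]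
    have hest := est hU hφ hCφ (A1 := fun z => E1 n z - e1) (A2 := fun z => E2 n z - e2)
      (X := χ n) ((hs n).1.sub contDiffOn_const) ((hs n).2.1.sub contDiffOn_const) (hχ n)
      (fun z hz => by
        simp only [dx, dy, fderiv_sub_const]
        exact (hdiv n z hz).1) ht0 (CA := |CA|) (hA.2.trans (le_abs_self _)) m hm
    refine lt_of_le_of_lt hest ?_
    have hL0 : (0 : ℝ) ≤ L := L.2
    have h1 : (L : ℝ) * (t⁻¹ * δ) ≤ ε / 4 := by
      have : t⁻¹ * δ = ε / (4 * (L + 1)) := by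
        rw [hδ]; field_simp
      rw [this, mul_div_assoc', div_le_div_iff₀ (by positivity) (by norm_num)]
      nlinarith
    have h2 : (L : ℝ) * (t * |CA|) ≤ ε / 4 := by
      have h3 : (L : ℝ) * (t * |CA|) = (L * |CA| * ε) / (4 * (L + 1) * (|CA| + 1)) := by
        rw [ht]; ring
      rw [h3, div_le_div_iff₀ (by positivity) (by norm_num)]
      nlinarith [mul_nonneg hL0 (abs_nonneg CA), abs_nonneg CA, mul_nonneg (mul_nonneg hL0 (abs_nonneg CA)) hε.le,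
        mul_nonneg hL0 hε.le, mul_nonneg (abs_nonneg CA) hε.le]
    have h3 : (L : ℝ) * (t⁻¹ * δ + t * |CA|) ≤ ε / 2 := by
      rw [mul_add]; linarith
    linarith
  -- assembly
  have hI := hlim φ hφ
  have hfin := ((((hI.2.2.2.const_mul e1).add (hI.1.const_mul f2)).sub
    (hI.2.2.1.const_mul e2)).sub (hI.2.1.const_mul f1)).sub_const
      ((e1 * f2 - e2 * f1) * ((∫ z, φ z : ℝ) : ℂ))
  have hfin2 := hfin.sub hnull
  have hval : e1 * (f2 * ((∫ z, φ z : ℝ) : ℂ)) + f2 * (e1 * ((∫ z, φ z : ℝ) : ℂ)) -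
      e2 * (f1 * ((∫ z, φ z : ℝ) : ℂ)) - f1 * (e2 * ((∫ z, φ z : ℝ) : ℂ)) -
      (e1 * f2 - e2 * f1) * ((∫ z, φ z : ℝ) : ℂ) - 0 =
      (e1 * f2 - e2 * f1) * ((∫ z, φ z : ℝ) : ℂ) := by ring
  rw [hval] at hfin2
  refine hfin2.congr (fun n => ?_)
  have hcst : Integrable (fun z => (φ z : ℂ) * (e1 * f2 - e2 * f1)) :=
    cut_int hU hφ contDiffOn_const
  have hck : ∫ z, (φ z : ℂ) * (e1 * f2 - e2 * f1) =
      (e1 * f2 - e2 * f1) * ((∫ z, φ z : ℝ) : ℂ) := by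
    have h : ∫ z, (φ z : ℂ) = ((∫ z, φ z : ℝ) : ℂ) := integral_ofReal
    rw [integral_mul_const, h]; ring
  have iE1 := cut_int hU hφ (hs n).1
  have iE2 := cut_int hU hφ (hs n).2.1
  have iF1 := cut_int hU hφ (hs n).2.2.1
  have iF2 := cut_int hU hφ (hs n).2.2.2
  have hdχ : ∀ v : ℂ, ContDiffOn ℝ ∞ (fun z => fderiv ℝ (χ n) z v) (Metric.ball c r) := by
    intro v
    exact ((hχ n).fderiv_of_isOpen hU (by simp)).clm_apply contDiffOn_const
  have iN : Integrable (fun z => (φ z : ℂ) * ((E1 n z - e1) * dx (χ n) z +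
      (E2 n z - e2) * dy (χ n) z)) :=
    cut_int hU hφ ((((hs n).1.sub contDiffOn_const).mul (hdχ 1)).add
      (((hs n).2.1.sub contDiffOn_const).mul (hdχ I)))
  have a1 : Integrable (fun z => e1 * ((φ z : ℂ) * F2 n z)) := iF2.const_mul _
  have a2 : Integrable (fun z => f2 * ((φ z : ℂ) * E1 n z)) := iE1.const_mul _
  have a3 : Integrable (fun z => e2 * ((φ z : ℂ) * F1 n z)) := iF1.const_mul _
  have a4 : Integrable (fun z => f1 * ((φ z : ℂ) * E2 n z)) := iE2.const_mul _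
  have b1 : Integrable (fun z => e1 * ((φ z : ℂ) * F2 n z) + f2 * ((φ z : ℂ) * E1 n z)) :=
    a1.add a2
  have b2 : Integrable (fun z => e1 * ((φ z : ℂ) * F2 n z) + f2 * ((φ z : ℂ) * E1 n z) -
    e2 * ((φ z : ℂ) * F1 n z)) := b1.sub a3
  have b3 : Integrable (fun z => e1 * ((φ z : ℂ) * F2 n z) + f2 * ((φ z : ℂ) * E1 n z) -
    e2 * ((φ z : ℂ) * F1 n z) - f1 * ((φ z : ℂ) * E2 n z)) := b2.sub a4
  have b4 : Integrable (fun z => e1 * ((φ z : ℂ) * F2 n z) + f2 * ((φ z : ℂ) * E1 n z) -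
    e2 * ((φ z : ℂ) * F1 n z) - f1 * ((φ z : ℂ) * E2 n z) -
    (φ z : ℂ) * (e1 * f2 - e2 * f1)) := b3.sub hcst
  rw [← hck, ← integral_const_mul, ← integral_const_mul, ← integral_const_mul,
    ← integral_const_mul, ← integral_add a1 a2, ← integral_sub b1 a3, ← integral_sub b2 a4,
    ← integral_sub b3 hcst, ← integral_sub b4 iN]
  congr 1; funext z
  by_cases hz : z ∈ Metric.ball c r
  · rw [(hχd n z hz).1, (hχd n z hz).2]; ring
  · rw [image_eq_zero_of_notMem_tsupport (fun h => hz (hφ.2.2 h))]; simp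

end Pool.Agent.W450.RW.DC
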