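import Pool.Agent.W450.RW.DC

set_option autoImplicit false
open MeasureTheory Filter Topology Complex
open scoped ContDiff

namespace Pool.Agent.W450.RW.T
open Pool.Agent.W745.RW Pool.Agent.W450.RW.RE Pool.Agent.W450.RW.DC

lemma tf_deriv {U : Set ℂ} {φ : ℂ → ℝ} (hφ : TF U φ) (v : ℂ) : TF U (fun z => fderiv ℝ φ z v) := by
  refine ⟨(hφ.1.fderiv_right (by simp)).clm_apply contDiff_const, ?_, ?_⟩
  · exact (hφ.2.1.fderiv ℝ).comp_left (g := fun A : ℂ →L[ℝ] ℝ => A v) rfl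
  · refine Set.Subset.trans ?_ hφ.2.2
    refine Set.Subset.trans (closure_mono ?_) (tsupport_fderiv_subset ℝ)
    intro z hz h0
    exact hz (by simp [h0])

lemma parts1 {U : Set ℂ} (hU : IsOpen U) {φ : ℂ → ℝ} (hφ : TF U φ) {G : ℂ → ℂ}
    (hG : ContDiffOn ℝ ∞ G U) (v : ℂ) :
    ∫ z, (φ z : ℂ) * fderiv ℝ G z v = - ∫ z, ((fderiv ℝ φ z v : ℝ) : ℂ) * G z := by
  have i1 := int_fderiv (cut_smooth hU hφ.1 hφ.2.2 hG) (cut_cpt hφ G) v
  have hdG : ContDiffOn ℝ ∞ (fun z => fderiv ℝ G z v) U :=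
    (hG.fderiv_of_isOpen hU (by simp)).clm_apply contDiffOn_const
  have k1 := cut_int hU hφ hdG
  have k2 := cut_int hU (tf_deriv hφ v) hG
  have key : ∀ z, fderiv ℝ (fun z => (φ z : ℂ) * G z) z v =
      (φ z : ℂ) * fderiv ℝ G z v + ((fderiv ℝ φ z v : ℝ) : ℂ) * G z := by
    intro z
    by_cases hz : z ∈ U
    · have dφ : HasFDerivAt φ (fderiv ℝ φ z) z :=
        (hφ.1.differentiable (by simp) z).hasFDerivAt
      have dφ' : HasFDerivAt (fun z => (φ z : ℂ)) (Complex.ofRealCLM.comp (fderiv ℝ φ z)) z :=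
        Complex.ofRealCLM.hasFDerivAt.comp z dφ
      have dG : HasFDerivAt G (fderiv ℝ G z) z :=
        ((hG.contDiffAt (hU.mem_nhds hz)).differentiableAt (by simp)).hasFDerivAt
      have f1 := (dφ'.mul dG).fderiv
      change fderiv ℝ (fun z => (φ z : ℂ) * G z) z = _ at f1
      rw [f1]
      simp only [ContinuousLinearMap.add_apply, ContinuousLinearMap.smul_apply, smul_eq_mul,
        ContinuousLinearMap.comp_apply, Complex.ofRealCLM_apply]
      ring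
    · have h0 : φ =ᶠ[𝓝 z] 0 := notMem_tsupport_iff_eventuallyEq.1 (fun h => hz (hφ.2.2 h))
      have h1 : (fun z => (φ z : ℂ) * G z) =ᶠ[𝓝 z] fun _ => 0 := by
        filter_upwards [h0] with w hw
        simp [hw]
      have e1 : φ z = 0 := h0.eq_of_nhds
      have e2 : fderiv ℝ φ z = 0 := by
        rw [h0.fderiv_eq]; simp
      rw [h1.fderiv_eq]
      simp [e1, e2]
  rw [integral_congr_ae (ae_of_all _ key), integral_add k1 k2] at i1
  exact eq_neg_of_add_eq_zero_left i1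

/-- Leibniz rule for a product of four. -/
lemma leib {U : Set ℂ} (hU : IsOpen U) {w1 w2 w3 w4 : ℂ → ℂ} (h1 : ContDiffOn ℝ ∞ w1 U)
    (h2 : ContDiffOn ℝ ∞ w2 U) (h3 : ContDiffOn ℝ ∞ w3 U) (h4 : ContDiffOn ℝ ∞ w4 U) {z : ℂ}
    (hz : z ∈ U) (v : ℂ) :
    fderiv ℝ (fun z => w1 z * w2 z * w3 z * w4 z) z v =
      fderiv ℝ w1 z v * w2 z * w3 z * w4 z + w1 z * fderiv ℝ w2 z v * w3 z * w4 z +
      w1 z * w2 z * fderiv ℝ w3 z v * w4 z + w1 z * w2 z * w3 z * fderiv ℝ w4 z v := by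
  have d : ∀ {w : ℂ → ℂ}, ContDiffOn ℝ ∞ w U → HasFDerivAt w (fderiv ℝ w z) z := fun h =>
    ((h.contDiffAt (hU.mem_nhds hz)).differentiableAt (by simp)).hasFDerivAt
  have f1 := ((((d h1).mul (d h2)).mul (d h3)).mul (d h4)).fderiv
  change fderiv ℝ (fun z => w1 z * w2 z * w3 z * w4 z) z = _ at f1
  rw [f1]
  simp only [ContinuousLinearMap.add_apply, ContinuousLinearMap.smul_apply, smul_eq_mul,
    Pi.mul_apply]
  ring

lemma bnd4 (a b c d : ℂ) : ‖a * b * c * d‖ ≤ ‖a‖ ^ 4 + ‖b‖ ^ 4 + ‖c‖ ^ 4 + ‖d‖ ^ 4 := by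
  rw [norm_mul, norm_mul, norm_mul]
  set x := ‖a‖
  set y := ‖b‖
  set z := ‖c‖
  set w := ‖d‖
  have h1 : x * y * (z * w) ≤ (x * y) ^ 2 + (z * w) ^ 2 := by
    nlinarith [sq_nonneg (x * y - z * w), sq_nonneg (x * y), sq_nonneg (z * w)]
  have h2 : (x * y) ^ 2 ≤ x ^ 4 + y ^ 4 := by
    nlinarith [sq_nonneg (x ^ 2 - y ^ 2), sq_nonneg (x ^ 2), sq_nonneg (y ^ 2)]
  have h3 : (z * w) ^ 2 ≤ z ^ 4 + w ^ 4 := by
    nlinarith [sq_nonneg (z ^ 2 - w ^ 2), sq_nonneg (z ^ 2), sq_nonneg (w ^ 2)]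
  have h4 : x * y * z * w = x * y * (z * w) := by ring
  rw [h4]; linarith

/-- the general statement, `s = ± 1`. -/
lemma gen (hW : SW) (s : ℂ) (B : Set ℂ) (hB : IsOpen B) (h : ℕ → ℝ) (u : ℕ → ℂ → ℝ)
    (hsol : ∀ n, Sol B (h n) (u n)) (hh : Tendsto h atTop (𝓝 0)) (hbd : Bd B h u) (φ : ℂ → ℝ)
    (hφ : TF B φ) (a b c d : ℤ) :
    Null (fun n => ∫ z, (φ z : ℂ) * ((h n : ℂ) * (fderiv ℝ (fun z => W (h n) (u n) a z *
      W (h n) (u n) b z * W (h n) (u n) c z * W (h n) (u n) d z) z 1 + s * fderiv ℝ (fun z =>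
      W (h n) (u n) a z * W (h n) (u n) b z * W (h n) (u n) c z * W (h n) (u n) d z) z I))) := by
  obtain ⟨Ca, hCa⟩ := hbd a (tsupport φ) hφ.2.1 hφ.2.2
  obtain ⟨Cb, hCb⟩ := hbd b (tsupport φ) hφ.2.1 hφ.2.2
  obtain ⟨Cc, hCc⟩ := hbd c (tsupport φ) hφ.2.1 hφ.2.2
  obtain ⟨Cd, hCd⟩ := hbd d (tsupport φ) hφ.2.1 hφ.2.2
  obtain ⟨L, hL⟩ := ContDiff.lipschitzWith_of_hasCompactSupport hφ.2.1 hφ.1 (by simp)
  have hCφ : ∀ z, ‖fderiv ℝ φ z‖ ≤ (L : ℝ) := fun z => norm_fderiv_le_of_lipschitz ℝ hL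
  have hsm : ∀ n k, ContDiffOn ℝ ∞ (W (h n) (u n) k) B := fun n k =>
    (hW B hB (h n) (u n) (hsol n)).1 k
  have hlim : Tendsto (fun n => |h n| * ((L * (1 + ‖s‖)) * (Ca + Cb + Cc + Cd))) atTop (𝓝 0) := by
    have := (hh.abs).mul_const ((L * (1 + ‖s‖)) * (Ca + Cb + Cc + Cd))
    simpa using this
  refine squeeze_zero_norm' ?_ hlim
  filter_upwards [hCa, hCb, hCc, hCd] with n na nb nc nd
  set G : ℂ → ℂ := fun z => W (h n) (u n) a z * W (h n) (u n) b z * W (h n) (u n) c z *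
    W (h n) (u n) d z with hG
  have hGs : ContDiffOn ℝ ∞ G B := (((hsm n a).mul (hsm n b)).mul (hsm n c)).mul (hsm n d)
  have hdG : ∀ v : ℂ, ContDiffOn ℝ ∞ (fun z => fderiv ℝ G z v) B := fun v =>
    (hGs.fderiv_of_isOpen hB (by simp)).clm_apply contDiffOn_const
  have e1 : ∫ z, (φ z : ℂ) * ((h n : ℂ) * (fderiv ℝ G z 1 + s * fderiv ℝ G z I)) =
      -((h n : ℂ) * ∫ z, (((fderiv ℝ φ z 1 : ℝ) : ℂ) + s * ((fderiv ℝ φ z I : ℝ) : ℂ)) * G z) := by
    have p1 := parts1 hB hφ hGs 1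
    have p2 := parts1 hB hφ hGs I
    have k1 := cut_int hB hφ (hdG 1)
    have k2 := (cut_int hB hφ (hdG I)).const_mul s
    have l1 := cut_int hB (tf_deriv hφ 1) hGs
    have l2 := (cut_int hB (tf_deriv hφ I) hGs).const_mul s
    have q1 : ∫ z, (φ z : ℂ) * ((h n : ℂ) * (fderiv ℝ G z 1 + s * fderiv ℝ G z I)) =
        (h n : ℂ) * ((∫ z, (φ z : ℂ) * fderiv ℝ G z 1) + s * ∫ z, (φ z : ℂ) * fderiv ℝ G z I) := by
      rw [← integral_const_mul s, ← integral_add k1 k2, ← integral_const_mul]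
      congr 1; funext z; ring
    have q2 : ∫ z, (((fderiv ℝ φ z 1 : ℝ) : ℂ) + s * ((fderiv ℝ φ z I : ℝ) : ℂ)) * G z =
        (∫ z, ((fderiv ℝ φ z 1 : ℝ) : ℂ) * G z) + s * ∫ z, ((fderiv ℝ φ z I : ℝ) : ℂ) * G z := by
      rw [← integral_const_mul s, ← integral_add l1 l2]
      congr 1; funext z; ring
    rw [q1, q2, p1, p2]; ring
  rw [e1, norm_neg, norm_mul, Complex.norm_real, Real.norm_eq_abs]
  refine mul_le_mul_of_nonneg_left ?_ (abs_nonneg _)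
  have e2 : ∫ z, (((fderiv ℝ φ z 1 : ℝ) : ℂ) + s * ((fderiv ℝ φ z I : ℝ) : ℂ)) * G z =
      ∫ z in tsupport φ, (((fderiv ℝ φ z 1 : ℝ) : ℂ) + s * ((fderiv ℝ φ z I : ℝ) : ℂ)) * G z := by
    refine (setIntegral_eq_integral_of_forall_compl_eq_zero (fun z hz => ?_)).symm
    have h0 : φ =ᶠ[𝓝 z] 0 := notMem_tsupport_iff_eventuallyEq.1 hz
    have e2 : fderiv ℝ φ z = 0 := by
      rw [h0.fderiv_eq]; simp
    simp [e2]
  rw [e2]
  have cW : ∀ k, IntegrableOn (fun z => ‖W (h n) (u n) k z‖ ^ 4) (tsupport φ) := fun k =>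
    ContinuousOn.integrableOn_compact hφ.2.1 (((hsm n k).continuousOn.mono hφ.2.2).norm.pow 4)
  have j1 : IntegrableOn (fun z => ‖W (h n) (u n) a z‖ ^ 4 + ‖W (h n) (u n) b z‖ ^ 4)
    (tsupport φ) := (cW a).add (cW b)
  have j2 : IntegrableOn (fun z => ‖W (h n) (u n) a z‖ ^ 4 + ‖W (h n) (u n) b z‖ ^ 4 +
    ‖W (h n) (u n) c z‖ ^ 4) (tsupport φ) := j1.add (cW c)
  have j3 : IntegrableOn (fun z => ‖W (h n) (u n) a z‖ ^ 4 + ‖W (h n) (u n) b z‖ ^ 4 +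
    ‖W (h n) (u n) c z‖ ^ 4 + ‖W (h n) (u n) d z‖ ^ 4) (tsupport φ) := j2.add (cW d)
  refine (norm_integral_le_of_norm_le (g := fun z => (L * (1 + ‖s‖)) *
    (‖W (h n) (u n) a z‖ ^ 4 + ‖W (h n) (u n) b z‖ ^ 4 +
      ‖W (h n) (u n) c z‖ ^ 4 + ‖W (h n) (u n) d z‖ ^ 4)) (j3.const_mul _)
      (ae_of_all _ (fun z => ?_))).trans ?_
  · rw [norm_mul]
    refine mul_le_mul ?_ (bnd4 _ _ _ _) (norm_nonneg _) (by positivity)
    refine (norm_add_le _ _).trans ?_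
    rw [norm_mul, Complex.norm_real, Complex.norm_real]
    have h1 : ‖fderiv ℝ φ z 1‖ ≤ L := by
      refine ((fderiv ℝ φ z).le_opNorm 1).trans ?_
      rw [norm_one, mul_one]; exact hCφ z
    have h2 : ‖fderiv ℝ φ z I‖ ≤ L := by
      refine ((fderiv ℝ φ z).le_opNorm I).trans ?_
      rw [Complex.norm_I, mul_one]; exact hCφ z
    have h3 := mul_le_mul_of_nonneg_left h2 (norm_nonneg s)
    linarith
  · rw [integral_const_mul]
    refine mul_le_mul_of_nonneg_left ?_ (by positivity)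
    rw [integral_add j2 (cW d), integral_add j1 (cW c), integral_add (cW a) (cW b)]
    linarith

lemma add4 {f1 f2 f3 f4 : ℂ → ℂ} (h1 : Integrable f1) (h2 : Integrable f2) (h3 : Integrable f3)
    (h4 : Integrable f4) : (∫ z, f1 z) + (∫ z, f2 z) + (∫ z, f3 z) + (∫ z, f4 z) =
      ∫ z, (f1 z + f2 z + f3 z + f4 z) := by
  have a1 : Integrable (fun z => f1 z + f2 z) := h1.add h2
  have a2 : Integrable (fun z => f1 z + f2 z + f3 z) := a1.add h3
  rw [integral_add a2 h4, integral_add a1 h3, integral_add h1 h2]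

theorem main (hW : SW) : ST := by
  intro B hB h u hsol hh hbd φ hφ a b c d
  have hsm : ∀ n k, ContDiffOn ℝ ∞ (W (h n) (u n) k) B := fun n k =>
    (hW B hB (h n) (u n) (hsol n)).1 k
  have hi : ∀ n a b c d, Integrable (fun z => (φ z : ℂ) * (W (h n) (u n) a z *
      W (h n) (u n) b z * W (h n) (u n) c z * W (h n) (u n) d z)) := fun n a b c d =>
    cut_int hB hφ ((((hsm n a).mul (hsm n b)).mul (hsm n c)).mul (hsm n d))
  constructor
  · refine (gen hW (-I) B hB h u hsol hh hbd φ hφ a b c d).congr (fun n => ?_)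
    unfold MM
    have i1 := hi n (a+1) b c d
    have i2 := hi n a (b+1) c d
    have i3 := hi n a b (c+1) d
    have i4 := hi n a b c (d+1)
    rw [add4 i1 i2 i3 i4]
    congr 1; funext z
    by_cases hz : z ∈ B
    · have hp := (hW B hB (h n) (u n) (hsol n)).2.1
      rw [leib hB (hsm n a) (hsm n b) (hsm n c) (hsm n d) hz,
        leib hB (hsm n a) (hsm n b) (hsm n c) (hsm n d) hz,
        ← hp a z hz, ← hp b z hz, ← hp c z hz, ← hp d z hz]
      simp only [Dp, dx, dy]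
      ring
    · rw [image_eq_zero_of_notMem_tsupport (fun h => hz (hφ.2.2 h))]; simp
  · have := (gen hW I B hB h u hsol hh hbd φ hφ a b c d).neg
    rw [neg_zero] at this
    refine this.congr (fun n => ?_)
    unfold MM
    have i1 := hi n (a-1) b c d
    have i2 := hi n a (b-1) c d
    have i3 := hi n a b (c-1) d
    have i4 := hi n a b c (d-1)
    rw [add4 i1 i2 i3 i4, ← integral_neg]
    congr 1; funext z
    by_cases hz : z ∈ B
    · have hp := (hW B hB (h n) (u n) (hsol n)).2.2.1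
      have hp' : ∀ k : ℤ, W (h n) (u n) (k - 1) z = - Dm (h n) (W (h n) (u n) k) z := by
        intro k; rw [hp k z hz, neg_neg]
      rw [leib hB (hsm n a) (hsm n b) (hsm n c) (hsm n d) hz,
        leib hB (hsm n a) (hsm n b) (hsm n c) (hsm n d) hz, hp', hp', hp', hp']
      simp only [Dm, dx, dy]
      ring
    · rw [image_eq_zero_of_notMem_tsupport (fun h => hz (hφ.2.2 h))]; simp

end Pool.Agent.W450.RW.T
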