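import Pool.Agent.W745.RW.Stm

set_option autoImplicit false
open MeasureTheory Filter Topology Complex
open scoped ContDiff Convolution

namespace Pool.Agent.W450.RW.RE
open Pool.Agent.W745.RW

lemma cut_smooth {U : Set ℂ} (hU : IsOpen U) {φ : ℂ → ℝ} (hφ : ContDiff ℝ ∞ φ) (hs : tsupport φ ⊆ U)
    {χ : ℂ → ℂ} (hχ : ContDiffOn ℝ ∞ χ U) : ContDiff ℝ ∞ (fun z => (φ z : ℂ) * χ z) := by
  rw [contDiff_iff_contDiffAt]
  intro z
  by_cases hz : z ∈ U
  · have h1 : ContDiffAt ℝ ∞ (fun z => (φ z : ℂ)) z :=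
      (Complex.ofRealCLM.contDiff.comp hφ).contDiffAt
    exact h1.mul (hχ.contDiffAt (hU.mem_nhds hz))
  · have h0 : φ =ᶠ[𝓝 z] 0 := notMem_tsupport_iff_eventuallyEq.1 (fun h => hz (hs h))
    have : (fun z => (φ z : ℂ) * χ z) =ᶠ[𝓝 z] fun _ => 0 := by
      filter_upwards [h0] with w hw
      simp [hw]
    exact contDiffAt_const.congr_of_eventuallyEq this

lemma opn (A : ℂ →L[ℝ] ℂ) : ‖A‖ ≤ ‖A 1‖ + ‖A I‖ := by
  refine A.opNorm_le_bound (by positivity) (fun v => ?_)
  have hv : v = v.re • (1 : ℂ) + v.im • I := by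
    simp [Complex.re_add_im]
  have : A v = v.re • A 1 + v.im • A I := by
    conv_lhs => rw [hv, map_add, map_smul, map_smul]
  rw [this]
  have h1 : ‖v.re • A 1‖ ≤ ‖v‖ * ‖A 1‖ := by
    rw [norm_smul]
    exact mul_le_mul_of_nonneg_right (Complex.abs_re_le_norm v) (norm_nonneg _)
  have h2 : ‖v.im • A I‖ ≤ ‖v‖ * ‖A I‖ := by
    rw [norm_smul]
    exact mul_le_mul_of_nonneg_right (Complex.abs_im_le_norm v) (norm_nonneg _)
  have := norm_add_le (v.re • A 1) (v.im • A I)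
  nlinarith

lemma unif {K₁ : Set ℂ} (hK₁ : IsCompact K₁) (a : ℕ → ℂ → ℂ) (C : ℝ)
    (hC : ∀ᶠ n in atTop, ∀ p ∈ K₁, ∀ q ∈ K₁, ‖a n p - a n q‖ ≤ C * ‖p - q‖)
    (h0 : ∀ p ∈ K₁, Tendsto (fun n => a n p) atTop (𝓝 0)) {η : ℝ} (hη : 0 < η) :
    ∀ᶠ n in atTop, ∀ p ∈ K₁, ‖a n p‖ ≤ η := by
  have key : ∀ᶠ n in atTop, ∀ p ∈ K₁, p ∈ K₁ → ‖a n p‖ ≤ η := by
    refine hK₁.induction_on (p := fun s => ∀ᶠ n in atTop, ∀ p ∈ s, p ∈ K₁ → ‖a n p‖ ≤ η)
      ?_ ?_ ?_ ?_
    · exact Eventually.of_forall (fun n p hp => absurd hp (Set.notMem_empty p))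
    · intro s t hst ht
      filter_upwards [ht] with n hn p hp using hn p (hst hp)
    · intro s t hs ht
      filter_upwards [hs, ht] with n h1 h2 p hp
      rcases hp with hp | hp
      · exact h1 p hp
      · exact h2 p hp
    · intro x hx
      have hpos : 0 < η / (2 * (|C| + 1)) := by positivity
      refine ⟨Metric.ball x (η / (2 * (|C| + 1))),
        mem_nhdsWithin_of_mem_nhds (Metric.ball_mem_nhds x hpos), ?_⟩
      have h1 : ∀ᶠ n in atTop, ‖a n x‖ < η / 2 := by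
        have := (h0 x hx).norm
        rw [norm_zero] at this
        exact this.eventually (gt_mem_nhds (by positivity))
      filter_upwards [hC, h1] with n hn h1n p hp hpK
      have h2 := hn p hpK x hx
      have h3 : ‖p - x‖ < η / (2 * (|C| + 1)) := by
        rw [← dist_eq_norm]; exact hp
      have h4 : C * ‖p - x‖ ≤ (|C| + 1) * (η / (2 * (|C| + 1))) := by
        have : C ≤ |C| + 1 := by linarith [le_abs_self C]
        exact mul_le_mul this h3.le (norm_nonneg _) (by positivity)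
      have h5 : (|C| + 1) * (η / (2 * (|C| + 1))) = η / 2 := by
        have : |C| + 1 ≠ 0 := by positivity
        field_simp
      have h6 : ‖a n p‖ ≤ ‖a n p - a n x‖ + ‖a n x‖ := by
        have := norm_add_le (a n p - a n x) (a n x)
        rwa [sub_add_cancel] at this
      linarith
  filter_upwards [key] with n hn p hp using hn p hp hp

lemma lip {K' : Set ℂ} (hK' : IsCompact K') {F : ℂ → ℂ} (hF : ContinuousOn F K') {ρ : ℂ → ℝ}
    {L : NNReal} (hL : LipschitzWith L ρ) {p q : ℂ} (hp : ∀ w ∈ tsupport ρ, p - w ∈ K')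
    (hq : ∀ w ∈ tsupport ρ, q - w ∈ K') :
    ‖(∫ z, (ρ (p - z) : ℂ) * F z) - ∫ z, (ρ (q - z) : ℂ) * F z‖ ≤
      L * ‖p - q‖ * ∫ z in K', ‖F z‖ := by
  have e : ∀ p : ℂ, (∀ w ∈ tsupport ρ, p - w ∈ K') →
      ∫ z, (ρ (p - z) : ℂ) * F z = ∫ z in K', (ρ (p - z) : ℂ) * F z := by
    intro p hp
    refine (setIntegral_eq_integral_of_forall_compl_eq_zero (fun z hz => ?_)).symm
    have : ρ (p - z) = 0 := by
      by_contra h
      have := hp (p - z) (subset_tsupport _ h)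
      rw [sub_sub_cancel] at this
      exact hz this
    rw [this]; simp
  have hint : ∀ p : ℂ, IntegrableOn (fun z => (ρ (p - z) : ℂ) * F z) K' := by
    intro p
    refine ContinuousOn.integrableOn_compact hK' (ContinuousOn.mul ?_ hF)
    exact (Complex.continuous_ofReal.comp
      (hL.continuous.comp (continuous_const.sub continuous_id))).continuousOn
  rw [e p hp, e q hq, ← integral_sub (hint p) (hint q), ← integral_const_mul]
  refine norm_integral_le_of_norm_le ?_ (ae_of_all _ (fun z => ?_))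
  · exact ((ContinuousOn.integrableOn_compact hK' hF).norm).const_mul _
  · rw [← sub_mul, norm_mul, ← Complex.ofReal_sub, Complex.norm_real]
    refine mul_le_mul_of_nonneg_right ?_ (norm_nonneg _)
    have := hL.dist_le_mul (p - z) (q - z)
    rw [dist_eq_norm, dist_eq_norm, sub_sub_sub_cancel_right] at this
    exact this

/-- Derivative of the smoothing. -/
lemma smooth_deriv {ρ : ℂ → ℝ} (hρ : Continuous ρ) {g : ℂ → ℂ}
    (hg : ContDiff ℝ 1 g) (hcg : HasCompactSupport g) (p : ℂ) :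
    DifferentiableAt ℝ (fun p => ∫ w, (ρ w : ℂ) * g (p - w)) p ∧
    ∀ v : ℂ, fderiv ℝ (fun p => ∫ w, (ρ w : ℂ) * g (p - w)) p v =
      ∫ w, (ρ w : ℂ) * (fderiv ℝ g (p - w) v) := by
  have h1 := HasCompactSupport.hasFDerivAt_convolution_right (𝕜 := ℝ) (μ := (volume : Measure ℂ))
    (ContinuousLinearMap.lsmul ℝ ℝ : ℝ →L[ℝ] ℂ →L[ℝ] ℂ) hcg (hρ.locallyIntegrable) hg p
  have h2 : (fun p => ∫ w, (ρ w : ℂ) * g (p - w)) =
      (ρ ⋆[(ContinuousLinearMap.lsmul ℝ ℝ : ℝ →L[ℝ] ℂ →L[ℝ] ℂ), (volume : Measure ℂ)] g) := by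
    funext p
    rw [convolution_def]
    rfl
  rw [h2]
  refine ⟨h1.differentiableAt, fun v => ?_⟩
  rw [h1.fderiv, convolution_precompR_apply]
  · rw [convolution_def]; rfl
  · exact hρ.locallyIntegrable
  · exact hcg.fderiv ℝ
  · exact hg.continuous_fderiv (by norm_num)

/-- Uniform convergence of the smoothed derivatives. -/
lemma convg {c : ℂ} {r : ℝ} {K₁ K' : Set ℂ} (hK₁ : IsCompact K₁) (hK' : IsCompact K')
    (hK'b : K' ⊆ Metric.ball c r) {ρ : ℂ → ℝ} (hρs : ContDiff ℝ ∞ ρ) (hρc : HasCompactSupport ρ)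
    (hρK : ∀ z ∈ K₁, ∀ w ∈ tsupport ρ, z - w ∈ K') (F : ℕ → ℂ → ℂ)
    (hF : ∀ n, ContinuousOn (F n) K') (C1 : ℝ) (hC1 : ∀ᶠ n in atTop, ∫ z in K', ‖F n z‖ ≤ C1)
    (h0 : ∀ ψ, TF (Metric.ball c r) ψ → Null (fun n => ∫ z, (ψ z : ℂ) * F n z))
    {η : ℝ} (hη : 0 < η) :
    ∀ᶠ n in atTop, ∀ p ∈ K₁, ‖∫ z, (ρ (p - z) : ℂ) * F n z‖ ≤ η := by
  obtain ⟨L, hL⟩ := ContDiff.lipschitzWith_of_hasCompactSupport hρc hρs (by simp)
  refine unif hK₁ (fun n p => ∫ z, (ρ (p - z) : ℂ) * F n z) (L * C1) ?_ ?_ hη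
  · filter_upwards [hC1] with n hn p hp q hq
    refine (lip hK' (hF n) hL (hρK p hp) (hρK q hq)).trans ?_
    have h1 : (0 : ℝ) ≤ L * ‖p - q‖ := by positivity
    have := mul_le_mul_of_nonneg_left hn h1
    linarith
  · intro p hp
    have hsub : tsupport (fun z => ρ (p - z)) ⊆ K' := by
      refine closure_minimal (fun z hz => ?_) hK'.isClosed
      have := hρK p hp (p - z) (subset_tsupport _ hz)
      rwa [sub_sub_cancel] at this
    exact h0 (fun z => ρ (p - z)) ⟨hρs.comp (contDiff_const.sub contDiff_id),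
      hK'.of_isClosed_subset (isClosed_tsupport _) hsub, hsub.trans hK'b⟩

lemma norm_le_aux (a b : ℂ) : ‖a‖ ≤ 1 + (‖a‖ ^ 2 + ‖b‖ ^ 2) := by
  nlinarith [sq_nonneg (‖a‖ - 1), sq_nonneg ‖b‖, sq_nonneg ‖a‖, norm_nonneg a]

theorem main (hRa : SRa) : SRe := by
  intro c r χ hχ hbd hw K hK hKb δ hδ
  by_cases hr : 0 < r
  swap
  · have : K = ∅ := by
      rw [Metric.ball_eq_empty.2 (not_lt.1 hr)] at hKb
      exact Set.subset_empty_iff.1 hKb
    subst this
    exact Eventually.of_forall (fun n => ⟨0, by simpa using hδ.le⟩)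
  obtain ⟨r', ⟨hr'0, hr'r⟩, hKr'⟩ := exists_pos_lt_subset_ball hr hK.isClosed hKb
  have hK₁c : IsCompact (Metric.closedBall c r') := isCompact_closedBall c r'
  have hK₁b : Metric.closedBall c r' ⊆ Metric.ball c r := Metric.closedBall_subset_ball hr'r
  obtain ⟨K', hK', hK'b, hRa'⟩ := hRa c r (Metric.closedBall c r') hK₁c hK₁b
  obtain ⟨C, hC⟩ := hbd K' hK' hK'b
  have hεpos : 0 < δ / (4 * (|C| + 1)) := by positivity
  obtain ⟨ρ, hρs, hρc, hρK, hρest⟩ := hRa' (δ / (4 * (|C| + 1))) hεpos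
  obtain ⟨r'', ⟨hr''0, hr''r⟩, hK'r''⟩ := exists_pos_lt_subset_ball hr hK'.isClosed hK'b
  let φb : ContDiffBump c := ⟨r'', (r'' + r) / 2, hr''0, by linarith⟩
  have hφt : tsupport (φb : ℂ → ℝ) ⊆ Metric.ball c r := by
    rw [φb.tsupport_eq]
    exact Metric.closedBall_subset_ball (by show (r'' + r) / 2 < r; linarith)
  set X : ℕ → ℂ → ℂ := fun n z => ((φb z : ℝ) : ℂ) * χ n z with hXdef
  have hX : ∀ n, ContDiff ℝ ∞ (X n) := fun n =>
    cut_smooth Metric.isOpen_ball φb.contDiff hφt (hχ n)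
  have hXc : ∀ n, HasCompactSupport (X n) := fun n =>
    (φb.hasCompactSupport.comp_left (g := fun x : ℝ => (x : ℂ)) Complex.ofReal_zero).mul_right
  have hXeq : ∀ n, ∀ z ∈ K', X n =ᶠ[𝓝 z] χ n := by
    intro n z hz
    filter_upwards [Metric.isOpen_ball.mem_nhds (hK'r'' hz)] with w hw
    have : φb w = 1 := φb.one_of_mem_closedBall (Metric.ball_subset_closedBall hw)
    simp [hXdef, this]
  set g : ℕ → ℂ → ℂ := fun n p => ∫ w, (ρ w : ℂ) * X n (p - w) with hgdef
  have hg : ∀ n, ∀ p ∈ Metric.closedBall c r', g n p = ∫ w, (ρ w : ℂ) * χ n (p - w) := by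
    intro n p hp
    show ∫ w, (ρ w : ℂ) * X n (p - w) = _
    congr 1
    funext w
    by_cases hw : w ∈ tsupport ρ
    · rw [(hXeq n _ (hρK p hp w hw)).eq_of_nhds]
    · rw [image_eq_zero_of_notMem_tsupport hw]; simp
  have hd : ∀ (v : ℂ) n, ∀ p ∈ Metric.closedBall c r', fderiv ℝ (g n) p v =
      ∫ z, (ρ (p - z) : ℂ) * (fderiv ℝ (χ n) z v) := by
    intro v n p hp
    rw [(smooth_deriv hρs.continuous ((hX n).of_le (by simp)) (hXc n) p).2 v,
      ← integral_sub_left_eq_self (fun z => (ρ (p - z) : ℂ) * (fderiv ℝ (χ n) z v)) volume p]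
    congr 1
    funext w
    rw [sub_sub_cancel]
    by_cases hw : w ∈ tsupport ρ
    · rw [(hXeq n _ (hρK p hp w hw)).fderiv_eq]
    · rw [image_eq_zero_of_notMem_tsupport hw]; simp
  have hcont : ∀ (v : ℂ) n, ContinuousOn (fun z => fderiv ℝ (χ n) z v) K' := by
    intro v n
    have h1 : ContinuousOn (fderiv ℝ (χ n)) (Metric.ball c r) :=
      (hχ n).continuousOn_fderiv_of_isOpen Metric.isOpen_ball (by simp)
    exact (h1.clm_apply continuousOn_const).mono hK'b
  have hcx : ∀ n, ContinuousOn (fun z => dx (χ n) z) K' := fun n => hcont 1 n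
  have hcy : ∀ n, ContinuousOn (fun z => dy (χ n) z) K' := fun n => hcont I n
  have hGint : ∀ n, IntegrableOn (fun z => ‖dx (χ n) z‖ ^ 2 + ‖dy (χ n) z‖ ^ 2) K' := fun n =>
    ContinuousOn.integrableOn_compact hK' (((hcx n).norm.pow 2).add ((hcy n).norm.pow 2))
  have hone : IntegrableOn (fun _ : ℂ => (1 : ℝ)) K' :=
    ContinuousOn.integrableOn_compact hK' continuousOn_const
  have hsum : ∀ᶠ n in atTop, ∫ z in K', (1 + (‖dx (χ n) z‖ ^ 2 + ‖dy (χ n) z‖ ^ 2)) ≤
      (∫ z in K', (1 : ℝ)) + C := by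
    filter_upwards [hC] with n hn
    rw [integral_add hone (hGint n)]
    linarith
  have hLx : ∀ᶠ n in atTop, ∫ z in K', ‖dx (χ n) z‖ ≤ (∫ z in K', (1 : ℝ)) + C := by
    filter_upwards [hsum] with n hn
    refine le_trans (integral_mono (ContinuousOn.integrableOn_compact hK' (hcx n).norm)
      (hone.add (hGint n)) (fun z => ?_)) hn
    exact norm_le_aux _ _
  have hLy : ∀ᶠ n in atTop, ∫ z in K', ‖dy (χ n) z‖ ≤ (∫ z in K', (1 : ℝ)) + C := by
    filter_upwards [hsum] with n hn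
    refine le_trans (integral_mono (ContinuousOn.integrableOn_compact hK' (hcy n).norm)
      (hone.add (hGint n)) (fun z => ?_)) hn
    have := norm_le_aux (dy (χ n) z) (dx (χ n) z)
    show ‖dy (χ n) z‖ ≤ 1 + (‖dx (χ n) z‖ ^ 2 + ‖dy (χ n) z‖ ^ 2)
    linarith
  set V : ℝ := ∫ z in Metric.closedBall c r', (1 : ℝ) with hV
  have hV0 : 0 ≤ V := integral_nonneg (fun _ => zero_le_one)
  set s : ℝ := δ / (4 * (V + 1)) with hs
  have hspos : 0 < s := by positivity
  have hηpos : 0 < Real.sqrt s / (2 * r') := by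
    have := Real.sqrt_pos.2 hspos
    positivity
  have ux := convg hK₁c hK' hK'b hρs hρc hρK (fun n z => dx (χ n) z) hcx _ hLx
    (fun ψ hψ => (hw ψ hψ).1) hηpos
  have uy := convg hK₁c hK' hK'b hρs hρc hρK (fun n z => dy (χ n) z) hcy _ hLy
    (fun ψ hψ => (hw ψ hψ).2) hηpos
  filter_upwards [hC, ux, uy] with n hn hax hay
  refine ⟨g n c, ?_⟩
  have hdiff : ∀ p, DifferentiableAt ℝ (g n) p := fun p =>
    (smooth_deriv hρs.continuous ((hX n).of_le (by simp)) (hXc n) p).1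
  have hmv : ∀ z ∈ Metric.closedBall c r', ‖g n z - g n c‖ ^ 2 ≤ s := by
    intro z hz
    have h1 : ‖g n z - g n c‖ ≤ (2 * (Real.sqrt s / (2 * r'))) * ‖z - c‖ := by
      refine Convex.norm_image_sub_le_of_norm_fderiv_le (𝕜 := ℝ) (f := g n)
        (s := Metric.closedBall c r') (fun x _ => hdiff x) (fun x hx => ?_)
        (convex_closedBall c r') (Metric.mem_closedBall_self hr'0.le) hz
      refine (opn _).trans ?_
      have h1 := hax x hx
      have h2 := hay x hx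
      rw [hd 1 n x hx, hd I n x hx]
      change ‖∫ z, (ρ (x - z) : ℂ) * dx (χ n) z‖ + ‖∫ z, (ρ (x - z) : ℂ) * dy (χ n) z‖ ≤ _
      linarith
    have h2 : ‖z - c‖ ≤ r' := by
      rw [← dist_eq_norm]; exact hz
    have h3 : ‖g n z - g n c‖ ≤ Real.sqrt s := by
      refine h1.trans ?_
      have : (2 * (Real.sqrt s / (2 * r'))) * ‖z - c‖ ≤ (2 * (Real.sqrt s / (2 * r'))) * r' :=
        mul_le_mul_of_nonneg_left h2 (by positivity)
      refine this.trans (le_of_eq ?_)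
      field_simp
    calc ‖g n z - g n c‖ ^ 2 ≤ (Real.sqrt s) ^ 2 := by
          exact pow_le_pow_left₀ (norm_nonneg _) h3 2
      _ = s := Real.sq_sqrt hspos.le
  have hχc : ContinuousOn (χ n) (Metric.closedBall c r') := (hχ n).continuousOn.mono hK₁b
  have hgc : Continuous (g n) := continuous_iff_continuousAt.2 (fun p => (hdiff p).continuousAt)
  have hi1 : IntegrableOn (fun z => ‖χ n z - g n c‖ ^ 2) (Metric.closedBall c r') :=
    ContinuousOn.integrableOn_compact hK₁c ((hχc.sub continuousOn_const).norm.pow 2)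
  have hi2 : IntegrableOn (fun z => ‖χ n z - g n z‖ ^ 2) (Metric.closedBall c r') :=
    ContinuousOn.integrableOn_compact hK₁c ((hχc.sub hgc.continuousOn).norm.pow 2)
  have hi3 : IntegrableOn (fun _ : ℂ => (1 : ℝ)) (Metric.closedBall c r') :=
    ContinuousOn.integrableOn_compact hK₁c continuousOn_const
  have hest : ∫ z in Metric.closedBall c r', ‖χ n z - g n z‖ ^ 2 ≤
      δ / (4 * (|C| + 1)) * ∫ z in K', (‖dx (χ n) z‖ ^ 2 + ‖dy (χ n) z‖ ^ 2) := by
    refine le_trans (le_of_eq ?_) (hρest (χ n) (hχ n))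
    refine setIntegral_congr_fun measurableSet_closedBall (fun z hz => ?_)
    rw [hg n z hz]
  calc ∫ z in K, ‖χ n z - g n c‖ ^ 2
      ≤ ∫ z in Metric.closedBall c r', ‖χ n z - g n c‖ ^ 2 := by
        refine setIntegral_mono_set hi1 (ae_of_all _ (fun z => by positivity)) ?_
        exact (hKr'.trans Metric.ball_subset_closedBall).eventuallyLE
    _ ≤ ∫ z in Metric.closedBall c r', (2 * ‖χ n z - g n z‖ ^ 2 + 2 * s * 1) := by
        refine setIntegral_mono_on hi1 ((hi2.const_mul 2).add (hi3.const_mul (2 * s)))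
          measurableSet_closedBall (fun z hz => ?_)
        have h1 : ‖χ n z - g n c‖ ≤ ‖χ n z - g n z‖ + ‖g n z - g n c‖ := by
          have := norm_add_le (χ n z - g n z) (g n z - g n c)
          rwa [sub_add_sub_cancel] at this
        have h2 := hmv z hz
        have h3 : ‖χ n z - g n c‖ ^ 2 ≤ (‖χ n z - g n z‖ + ‖g n z - g n c‖) ^ 2 :=
          pow_le_pow_left₀ (norm_nonneg _) h1 2
        nlinarith [sq_nonneg (‖χ n z - g n z‖ - ‖g n z - g n c‖)]
    _ = 2 * (∫ z in Metric.closedBall c r', ‖χ n z - g n z‖ ^ 2) + 2 * s * V := by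
        rw [integral_add (hi2.const_mul 2) (hi3.const_mul (2 * s)), integral_const_mul,
          integral_const_mul]
    _ ≤ δ := by
        have h1 : ∫ z in K', (‖dx (χ n) z‖ ^ 2 + ‖dy (χ n) z‖ ^ 2) ≤ |C| :=
          hn.trans (le_abs_self C)
        have h2 := mul_le_mul_of_nonneg_left h1 hεpos.le
        have h3 : δ / (4 * (|C| + 1)) * |C| ≤ δ / 4 := by
          rw [div_mul_eq_mul_div, div_le_div_iff₀ (by positivity) (by norm_num)]
          nlinarith [abs_nonneg C]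
        have h4 : s * V ≤ δ / 4 := by
          rw [hs, div_mul_eq_mul_div, div_le_div_iff₀ (by positivity) (by norm_num)]
          nlinarith
        linarith

end Pool.Agent.W450.RW.RE
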